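import Pool.Agent.TH703.HU.Stm

/-! # Project HU, C9: cutting a planar minimizer with a disc -/

set_option autoImplicit false

open MeasureTheory Set Metric Filter Topology
open Pool.Agent.TH304.MI Pool.Agent.TH703.HU

noncomputable section

namespace Pool.Agent.TH802.HU

/-! ### the cutoff on the line -/

/-- the trapezoid -/
def trap (t η K r : ℝ) : ℝ := max 0 (min 1 (K * min (r - t) (t + η - r)))

lemma trap_cont (t η K : ℝ) : Continuous (trap t η K) := by
  unfold trap
  fun_prop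

lemma trap_nonneg (t η K r : ℝ) : 0 ≤ trap t η K r := le_max_left _ _

lemma trap_le (t η K r : ℝ) : trap t η K r ≤ 1 := max_le zero_le_one (min_le_left _ _)

lemma trap_left {t η K r : ℝ} (hK : 0 ≤ K) (h : r ≤ t) : trap t η K r = 0 := by
  unfold trap
  apply max_eq_left
  refine (min_le_right _ _).trans (mul_nonpos_of_nonneg_of_nonpos hK ?_)
  exact (min_le_left _ _).trans (by linarith)

lemma trap_right {t η K r : ℝ} (hK : 0 ≤ K) (h : t + η ≤ r) : trap t η K r = 0 := by
  unfold trap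
  apply max_eq_left
  refine (min_le_right _ _).trans (mul_nonpos_of_nonneg_of_nonpos hK ?_)
  exact (min_le_right _ _).trans (by linarith)

lemma trap_mid {t η a r : ℝ} (ha : 0 < a) (h1 : t + a ≤ r) (h2 : r ≤ t + η - a) :
    trap t η a⁻¹ r = 1 := by
  unfold trap
  have h3 : a ≤ min (r - t) (t + η - r) := le_min (by linarith) (by linarith)
  have h4 : 1 ≤ a⁻¹ * min (r - t) (t + η - r) := by
    calc (1 : ℝ) = a⁻¹ * a := by field_simp
      _ ≤ _ := mul_le_mul_of_nonneg_left h3 (by positivity)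
  rw [min_eq_left h4]
  simp

lemma exists_theta (t : ℝ) {η : ℝ} (hη : 0 < η) : ∃ θ : ℝ → ℝ, ContDiff ℝ 1 θ ∧
    (∀ r, r ≤ t → θ r = 1) ∧ (∀ r, t + η ≤ r → θ r = 0) ∧ (∀ r, 0 ≤ θ r ∧ θ r ≤ 1) ∧
    ∀ r, |deriv θ r| ≤ (1 + η) / η := by
  set a : ℝ := η ^ 2 / (2 * (1 + η)) with ha
  have ha0 : 0 < a := by positivity
  have ha2 : 2 * a = η - η / (1 + η) := by
    rw [ha]; field_simp; ring
  have hq : 0 < η / (1 + η) := by positivity
  set ψ : ℝ → ℝ := trap t η a⁻¹ with hψ
  have hK : 0 ≤ a⁻¹ := by positivity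
  have hψc : Continuous ψ := trap_cont _ _ _
  have hint : ∀ x y : ℝ, IntervalIntegrable ψ volume x y := fun x y => hψc.intervalIntegrable _ _
  have hψ0 : ∀ r, 0 ≤ ψ r := fun r => trap_nonneg _ _ _ _
  set I : ℝ := ∫ s in t..(t + η), ψ s with hI
  have hIge : η / (1 + η) ≤ I := by
    have e1 : I = (∫ s in t..(t + a), ψ s) + ((∫ s in (t + a)..(t + η - a), ψ s) +
        ∫ s in (t + η - a)..(t + η), ψ s) := by
      rw [intervalIntegral.integral_add_adjacent_intervals (hint _ _) (hint _ _),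
        intervalIntegral.integral_add_adjacent_intervals (hint _ _) (hint _ _)]
    have e2 : ∫ s in (t + a)..(t + η - a), ψ s = η / (1 + η) := by
      have e3 : ∫ s in (t + a)..(t + η - a), ψ s = ∫ s in (t + a)..(t + η - a), (1 : ℝ) := by
        apply intervalIntegral.integral_congr
        intro s hs
        rw [uIcc_of_le (by linarith)] at hs
        exact trap_mid ha0 hs.1 hs.2
      rw [e3, intervalIntegral.integral_const, smul_eq_mul, mul_one]
      linarith
    have e4 : 0 ≤ ∫ s in t..(t + a), ψ s :=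
      intervalIntegral.integral_nonneg (by linarith) fun s _ => hψ0 s
    have e5 : 0 ≤ ∫ s in (t + η - a)..(t + η), ψ s :=
      intervalIntegral.integral_nonneg (by linarith) fun s _ => hψ0 s
    rw [e1, e2]
    linarith
  have hI0 : 0 < I := hq.trans_le hIge
  refine ⟨fun r => 1 - I⁻¹ * ∫ s in t..r, ψ s, ?_, ?_, ?_, ?_, ?_⟩
  · have hder : ∀ r, HasDerivAt (fun r => 1 - I⁻¹ * ∫ s in t..r, ψ s) (-(I⁻¹ * ψ r)) r := by
      intro r
      have h1 := (hψc.integral_hasStrictDerivAt t r).hasDerivAt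
      have h2 := (h1.const_mul I⁻¹).const_sub 1
      exact h2
    rw [contDiff_one_iff_deriv]
    refine ⟨fun r => (hder r).differentiableAt, ?_⟩
    have : deriv (fun r => 1 - I⁻¹ * ∫ s in t..r, ψ s) = fun r => -(I⁻¹ * ψ r) := by
      funext r
      exact (hder r).deriv
    rw [this]
    fun_prop
  · intro r hr
    have : ∫ s in t..r, ψ s = 0 := by
      rw [intervalIntegral.integral_symm, neg_eq_zero]
      have e : ∫ s in r..t, ψ s = ∫ s in r..t, (0 : ℝ) := by
        apply intervalIntegral.integral_congr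
        intro s hs
        rw [uIcc_of_le hr] at hs
        exact trap_left hK hs.2
      rw [e]
      simp
    simp only [this, mul_zero, sub_zero]
  · intro r hr
    have : ∫ s in t..r, ψ s = I := by
      rw [← intervalIntegral.integral_add_adjacent_intervals (hint t (t + η)) (hint (t + η) r)]
      have e : ∫ s in (t + η)..r, ψ s = ∫ s in (t + η)..r, (0 : ℝ) := by
        apply intervalIntegral.integral_congr
        intro s hs
        rw [uIcc_of_le hr] at hs
        exact trap_right hK hs.1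
      rw [e]
      simp [hI]
    simp only [this]
    rw [inv_mul_cancel₀ hI0.ne', sub_self]
  · intro r
    have h1 : 0 ≤ ∫ s in t..r, ψ s ∧ ∫ s in t..r, ψ s ≤ I := by
      rcases le_total r t with h | h
      · have : ∫ s in t..r, ψ s = 0 := by
          rw [intervalIntegral.integral_symm, neg_eq_zero]
          have e : ∫ s in r..t, ψ s = ∫ s in r..t, (0 : ℝ) := by
            apply intervalIntegral.integral_congr
            intro s hs
            rw [uIcc_of_le h] at hs
            exact trap_left hK hs.2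
          rw [e]
          simp
        rw [this]
        exact ⟨le_rfl, hI0.le⟩
      · refine ⟨intervalIntegral.integral_nonneg h fun s _ => hψ0 s, ?_⟩
        rcases le_total r (t + η) with h' | h'
        · have e1 := intervalIntegral.integral_add_adjacent_intervals (hint t r) (hint r (t + η))
          have e2 : 0 ≤ ∫ s in r..(t + η), ψ s :=
            intervalIntegral.integral_nonneg h' fun s _ => hψ0 s
          rw [hI, ← e1]
          linarith
        · rw [← intervalIntegral.integral_add_adjacent_intervals (hint t (t + η)) (hint (t + η) r)]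
          have e : ∫ s in (t + η)..r, ψ s = ∫ s in (t + η)..r, (0 : ℝ) := by
            apply intervalIntegral.integral_congr
            intro s hs
            rw [uIcc_of_le h'] at hs
            exact trap_right hK hs.1
          rw [e]
          simp [hI]
    constructor
    · have : I⁻¹ * ∫ s in t..r, ψ s ≤ 1 := by
        rw [inv_mul_le_iff₀ hI0, mul_one]
        exact h1.2
      simp only
      linarith
    · have : 0 ≤ I⁻¹ * ∫ s in t..r, ψ s := mul_nonneg (by positivity) h1.1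
      simp only
      linarith
  · intro r
    have h1 := (hψc.integral_hasStrictDerivAt t r).hasDerivAt
    have h2 : HasDerivAt (fun r => 1 - I⁻¹ * ∫ s in t..r, ψ s) (-(I⁻¹ * ψ r)) r :=
      (h1.const_mul I⁻¹).const_sub 1
    rw [h2.deriv, abs_neg, abs_of_nonneg (mul_nonneg (by positivity) (hψ0 r))]
    calc I⁻¹ * ψ r ≤ I⁻¹ * 1 := mul_le_mul_of_nonneg_left (trap_le _ _ _ _) (by positivity)
      _ = I⁻¹ := mul_one _
      _ ≤ (η / (1 + η))⁻¹ := inv_anti₀ hq hIge
      _ = (1 + η) / η := by rw [inv_div]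

/-! ### the cutoff in the plane -/

lemma exists_chi (c : ℂ) {t η : ℝ} (ht : 0 < t) (hη : 0 < η) : ∃ χ : ℂ → ℝ, ContDiff ℝ 1 χ ∧
    (∀ z, 0 ≤ χ z ∧ χ z ≤ 1) ∧ (∀ z, ‖z - c‖ ≤ t → χ z = 1) ∧
    (∀ z, t + η ≤ ‖z - c‖ → χ z = 0) ∧ (∀ z, ‖fderiv ℝ χ z‖ ≤ (1 + η) / η) ∧
    (∀ z, ¬ (t < ‖z - c‖ ∧ ‖z - c‖ < t + η) → fderiv ℝ χ z = 0) := by
  obtain ⟨θ, hc, h1, h0, h01, hd⟩ := exists_theta t hη
  have hχ1 : ∀ z : ℂ, ‖z - c‖ ≤ t → θ ‖z - c‖ = 1 := fun z hz => h1 _ hz
  have hχ0 : ∀ z : ℂ, t + η ≤ ‖z - c‖ → θ ‖z - c‖ = 0 := fun z hz => h0 _ hz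
  have hcd : ContDiff ℝ 1 (fun z : ℂ => θ ‖z - c‖) := by
    rw [contDiff_iff_contDiffAt]
    intro z
    by_cases hz : z = c
    · subst hz
      have : (fun y : ℂ => θ ‖y - z‖) =ᶠ[𝓝 z] fun _ => (1 : ℝ) := by
        filter_upwards [ball_mem_nhds z ht] with y hy
        rw [mem_ball, dist_eq_norm] at hy
        exact hχ1 y hy.le
      exact contDiffAt_const.congr_of_eventuallyEq this
    · have h2 : ContDiffAt ℝ 1 (fun y : ℂ => ‖y - c‖) z :=
        (contDiffAt_norm ℝ (sub_ne_zero.2 hz)).comp z (contDiffAt_id.sub contDiffAt_const)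
      exact hc.contDiffAt.comp z h2
  refine ⟨fun z => θ ‖z - c‖, hcd, fun z => h01 _, hχ1, hχ0, ?_, ?_⟩
  · intro z
    have hq : 0 ≤ (1 + η) / η := by positivity
    have hθ : LipschitzWith (Real.toNNReal ((1 + η) / η)) θ := by
      apply lipschitzWith_of_nnnorm_deriv_le (hc.differentiable (by norm_num))
      intro x
      have := hd x
      apply NNReal.coe_le_coe.1
      rw [Real.coe_toNNReal _ hq]
      exact this
    have hL : LipschitzWith (Real.toNNReal ((1 + η) / η)) (fun z : ℂ => θ ‖z - c‖) := by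
      apply LipschitzWith.of_dist_le_mul
      intro x y
      refine (hθ.dist_le_mul _ _).trans ?_
      apply mul_le_mul_of_nonneg_left _ (NNReal.coe_nonneg _)
      rw [Real.dist_eq, dist_eq_norm]
      have := abs_norm_sub_norm_le (x - c) (y - c)
      rwa [sub_sub_sub_cancel_right] at this
    have := norm_fderiv_le_of_lipschitz (x₀ := z) ℝ hL
    rwa [Real.coe_toNNReal _ hq] at this
  · intro z hz
    rw [not_and_or, not_lt, not_lt] at hz
    rcases hz with hz | hz
    · apply IsLocalMax.fderiv_eq_zero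
      refine Filter.Eventually.of_forall fun y => ?_
      show θ ‖y - c‖ ≤ θ ‖z - c‖
      rw [hχ1 z hz]
      exact (h01 _).2
    · apply IsLocalMin.fderiv_eq_zero
      refine Filter.Eventually.of_forall fun y => ?_
      show θ ‖z - c‖ ≤ θ ‖y - c‖
      rw [hχ0 z hz]
      exact (h01 _).1

/-! ### fields -/

lemma dv2_cont {Y : ℂ → ℂ} (hY : ContDiff ℝ 1 Y) : Continuous (dv2 Y) := by
  have h := hY.continuous_fderiv (by norm_num)
  unfold dv2
  exact (Complex.continuous_re.comp (h.clm_apply continuous_const)).add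
    (Complex.continuous_im.comp (h.clm_apply continuous_const))

lemma dv2_supp {Y : ℂ → ℂ} (hc : HasCompactSupport Y) : HasCompactSupport (dv2 Y) := by
  refine HasCompactSupport.intro hc fun z hz => ?_
  have h1 : fderiv ℝ Y z = 0 := by
    by_contra h
    exact hz (support_fderiv_subset ℝ h)
  unfold dv2
  rw [h1]
  simp

lemma dv2_int {Y : ℂ → ℂ} (hY : ContDiff ℝ 1 Y) (hc : HasCompactSupport Y) :
    Integrable (dv2 Y) := (dv2_cont hY).integrable_of_hasCompactSupport (dv2_supp hc)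

lemma TW_zero {w : ℂ → ℝ} (hw : ∀ x, 0 ≤ w x) : TW w (fun _ => 0) where
  cd := contDiff_const
  cs := HasCompactSupport.zero
  sub := by
    have : tsupport (fun _ : ℂ => (0 : ℂ)) = ∅ := tsupport_eq_empty_iff.2 rfl
    rw [this]
    exact empty_subset _
  le := fun x => by simpa using hw x

lemma dv2_zero (z : ℂ) : dv2 (fun _ => (0 : ℂ)) z = 0 := by
  unfold dv2
  simp

lemma TW_mix {w : ℂ → ℝ} {Y1 Y2 : ℂ → ℂ} (h1 : TW w Y1) (h2 : TW w Y2)
    {χ : ℂ → ℝ} (hχ : ContDiff ℝ 1 χ) (h01 : ∀ z, 0 ≤ χ z ∧ χ z ≤ 1) :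
    TW w (fun z => Y1 z + χ z • (Y2 z - Y1 z)) where
  cd := by
    have e1 : ContDiff ℝ 1 (fun z => Y2 z - Y1 z) := h2.cd.sub h1.cd
    have e2 : ContDiff ℝ 1 (fun z => χ z • (Y2 z - Y1 z)) := hχ.smul e1
    exact h1.cd.add e2
  cs := by
    have e1 : HasCompactSupport (Y2 - Y1) := h2.cs.sub h1.cs
    have e2 : HasCompactSupport (fun z => χ z • (Y2 - Y1) z) := by
      refine HasCompactSupport.intro e1 fun z hz => ?_
      rw [image_eq_zero_of_notMem_tsupport hz, smul_zero]
    exact h1.cs.add e2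
  sub := by
    intro z hz
    by_cases k1 : z ∈ tsupport Y1
    · exact h1.sub k1
    · by_cases k2 : z ∈ tsupport Y2
      · exact h2.sub k2
      · exfalso
        have e1 := notMem_tsupport_iff_eventuallyEq.1 k1
        have e2 := notMem_tsupport_iff_eventuallyEq.1 k2
        apply notMem_tsupport_iff_eventuallyEq.2 _ hz
        filter_upwards [e1, e2] with y hy1 hy2
        rw [hy1, hy2]
        simp
  le := by
    intro x
    have e : Y1 x + χ x • (Y2 x - Y1 x) = (1 - χ x) • Y1 x + χ x • Y2 x := by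
      rw [smul_sub, sub_smul, one_smul]
      abel
    rw [e]
    refine (norm_add_le _ _).trans ?_
    rw [norm_smul, norm_smul, Real.norm_of_nonneg (sub_nonneg.2 (h01 x).2),
      Real.norm_of_nonneg (h01 x).1]
    have k1 := mul_le_mul_of_nonneg_left (h1.le x) (sub_nonneg.2 (h01 x).2)
    have k2 := mul_le_mul_of_nonneg_left (h2.le x) (h01 x).1
    linarith

lemma dv2_mix {Y1 Y2 : ℂ → ℂ} (h1 : ContDiff ℝ 1 Y1) (h2 : ContDiff ℝ 1 Y2)
    {χ : ℂ → ℝ} (hχ : ContDiff ℝ 1 χ) (z : ℂ) :
    dv2 (fun z => Y1 z + χ z • (Y2 z - Y1 z)) z =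
      dv2 Y1 z + χ z * (dv2 Y2 z - dv2 Y1 z) + fderiv ℝ χ z (Y2 z - Y1 z) := by
  have d1 : HasFDerivAt Y1 (fderiv ℝ Y1 z) z := (h1.differentiable (by norm_num) z).hasFDerivAt
  have d2 : HasFDerivAt Y2 (fderiv ℝ Y2 z) z := (h2.differentiable (by norm_num) z).hasFDerivAt
  have d3 : HasFDerivAt χ (fderiv ℝ χ z) z := (hχ.differentiable (by norm_num) z).hasFDerivAt
  have d21 : HasFDerivAt (fun z => Y2 z - Y1 z) (fderiv ℝ Y2 z - fderiv ℝ Y1 z) z := d2.sub d1
  have d4 : HasFDerivAt (fun z => χ z • (Y2 z - Y1 z))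
      (χ z • (fderiv ℝ Y2 z - fderiv ℝ Y1 z) + (fderiv ℝ χ z).smulRight (Y2 z - Y1 z)) z :=
    d3.smul d21
  have d5 : HasFDerivAt (fun z => Y1 z + χ z • (Y2 z - Y1 z)) (fderiv ℝ Y1 z +
      (χ z • (fderiv ℝ Y2 z - fderiv ℝ Y1 z) + (fderiv ℝ χ z).smulRight (Y2 z - Y1 z))) z :=
    d1.add d4
  have e : Y2 z - Y1 z = (Y2 z - Y1 z).re • (1 : ℂ) + (Y2 z - Y1 z).im • Complex.I := by
    apply Complex.ext <;> simp
  have e2 : fderiv ℝ χ z (Y2 z - Y1 z) = (Y2 z - Y1 z).re * fderiv ℝ χ z 1 +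
      (Y2 z - Y1 z).im * fderiv ℝ χ z Complex.I := by
    conv_lhs => rw [e]
    rw [map_add, map_smul, map_smul, smul_eq_mul, smul_eq_mul]
  unfold dv2
  rw [d5.fderiv, e2]
  simp only [_root_.add_apply, _root_.smul_apply,
    _root_.sub_apply, ContinuousLinearMap.smulRight_apply, Complex.add_re,
    Complex.add_im, Complex.real_smul, Complex.mul_re, Complex.mul_im, Complex.ofReal_re,
    Complex.ofReal_im, Complex.sub_re, Complex.sub_im]
  ring

/-! ### cutting -/

lemma cut_step {w : ℂ → ℝ} (hw0 : ∀ x, 0 ≤ w x) (hwi : Integrable w)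
    {A : Set ℂ} (hA : MeasurableSet A) {P : ℝ} (hP : PW w A P) (c : ℂ) {t η : ℝ} (ht : 0 < t)
    (hη : 0 < η) {Y1 Y2 : ℂ → ℂ} (h1 : TW w Y1) (h2 : TW w Y2) :
    ∃ χ : ℂ → ℝ, Continuous χ ∧ (∀ z, 0 ≤ χ z ∧ χ z ≤ 1) ∧ (∀ z, ‖z - c‖ ≤ t → χ z = 1) ∧
      (∀ z, t + η ≤ ‖z - c‖ → χ z = 0) ∧
      ∫ z in A, (dv2 Y1 z + χ z * (dv2 Y2 z - dv2 Y1 z)) ≤
        P + 2 * ((1 + η) / η * (mu w (A ∩ ball c (t + η)) - mu w (A ∩ ball c t))) := by
  obtain ⟨χ, hχ, h01, hχ1, hχ0, hd, hd0⟩ := exists_chi c ht hη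
  refine ⟨χ, hχ.continuous, h01, hχ1, hχ0, ?_⟩
  set h : ℝ := (1 + η) / η with hh
  have hh0 : 0 ≤ h := by positivity
  have hTW := TW_mix h1 h2 hχ h01
  have k1 := hP _ hTW
  have hi : Integrable (dv2 (fun z => Y1 z + χ z • (Y2 z - Y1 z))) := dv2_int hTW.cd hTW.cs
  have hc2 : Continuous (fun z => dv2 Y1 z + χ z * (dv2 Y2 z - dv2 Y1 z)) :=
    (dv2_cont h1.cd).add (hχ.continuous.mul ((dv2_cont h2.cd).sub (dv2_cont h1.cd)))
  have hs2 : HasCompactSupport (fun z => dv2 Y1 z + χ z * (dv2 Y2 z - dv2 Y1 z)) := by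
    have e1 : HasCompactSupport (dv2 Y2 - dv2 Y1) := (dv2_supp h2.cs).sub (dv2_supp h1.cs)
    have e2 : HasCompactSupport (fun z => χ z * (dv2 Y2 - dv2 Y1) z) := by
      refine HasCompactSupport.intro e1 fun z hz => ?_
      rw [image_eq_zero_of_notMem_tsupport hz, mul_zero]
    exact (dv2_supp h1.cs).add e2
  have hi2 : Integrable (fun z => dv2 Y1 z + χ z * (dv2 Y2 z - dv2 Y1 z)) :=
    hc2.integrable_of_hasCompactSupport hs2
  -- the annulus
  set N : Set ℂ := ball c (t + η) \ ball c t with hN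
  have hNm : MeasurableSet N := measurableSet_ball.diff measurableSet_ball
  have hpt : ∀ z, dv2 Y1 z + χ z * (dv2 Y2 z - dv2 Y1 z) -
      N.indicator (fun z => h * (2 * w z)) z ≤
      dv2 (fun z => Y1 z + χ z • (Y2 z - Y1 z)) z := by
    intro z
    rw [dv2_mix h1.cd h2.cd hχ z]
    have hnorm : ‖Y2 z - Y1 z‖ ≤ 2 * w z := by
      refine (norm_sub_le _ _).trans ?_
      linarith [h1.le z, h2.le z]
    by_cases hz : t < ‖z - c‖ ∧ ‖z - c‖ < t + η
    · have hzN : z ∈ N := by
        rw [hN, Set.mem_sdiff, mem_ball, mem_ball, dist_eq_norm]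
        exact ⟨hz.2, not_lt.2 hz.1.le⟩
      rw [indicator_of_mem hzN]
      have e1 : |fderiv ℝ χ z (Y2 z - Y1 z)| ≤ h * (2 * w z) := by
        refine ((fderiv ℝ χ z).le_opNorm _).trans ?_
        exact mul_le_mul (hd z) hnorm (norm_nonneg _) hh0
      have e2 := (abs_le.1 e1).1
      linarith
    · rw [hd0 z hz]
      have e1 : 0 ≤ N.indicator (fun z => h * (2 * w z)) z := by
        apply indicator_nonneg
        intro y _
        exact mul_nonneg hh0 (mul_nonneg (by norm_num) (hw0 y))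
      simp only [_root_.zero_apply, add_zero]
      linarith
  have hi3 : Integrable (N.indicator (fun z => h * (2 * w z))) :=
    ((hwi.const_mul 2).const_mul h).indicator hNm
  have k2 : ∫ z in A, (dv2 Y1 z + χ z * (dv2 Y2 z - dv2 Y1 z) -
      N.indicator (fun z => h * (2 * w z)) z) ≤
      ∫ z in A, dv2 (fun z => Y1 z + χ z • (Y2 z - Y1 z)) z := by
    apply setIntegral_mono (hi2.sub hi3).integrableOn hi.integrableOn
    exact hpt
  rw [integral_sub hi2.integrableOn hi3.integrableOn] at k2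
  have k3 : ∫ z in A, N.indicator (fun z => h * (2 * w z)) z =
      2 * (h * (mu w (A ∩ ball c (t + η)) - mu w (A ∩ ball c t))) := by
    rw [setIntegral_indicator hNm, integral_const_mul, integral_const_mul]
    have e1 : ∫ z in A ∩ N, w z = mu w (A ∩ ball c (t + η)) - mu w (A ∩ ball c t) := by
      have e2 : A ∩ N = (A ∩ ball c (t + η)) \ (A ∩ ball c t) := by
        ext z
        rw [hN]
        simp only [mem_inter_iff, Set.mem_sdiff]
        tauto
      have e3 : A ∩ ball c t ⊆ A ∩ ball c (t + η) :=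
        inter_subset_inter_right _ (ball_subset_ball (by linarith))
      unfold mu
      rw [e2, setIntegral_sdiff (hA.inter measurableSet_ball) hwi.integrableOn e3]
    rw [e1]
    ring
  rw [k3] at k2
  linarith

lemma cut {w : ℂ → ℝ} (hw0 : ∀ x, 0 ≤ w x) (hwi : Integrable w)
    {A : Set ℂ} (hA : MeasurableSet A) {P : ℝ} (hP : PW w A P) (c : ℂ) {t d : ℝ} (ht : 0 < t)
    (hd : HasDerivAt (fun t : ℝ => mu w (A ∩ ball c t)) d t)
    {Y1 Y2 : ℂ → ℂ} (h1 : TW w Y1) (h2 : TW w Y2) :
    (∫ z in A \ ball c t, dv2 Y1 z) + ∫ z in A ∩ ball c t, dv2 Y2 z ≤ P + 2 * d := by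
  set η : ℕ → ℝ := fun n => 1 / ((n : ℝ) + 1) with hη
  have hη0 : ∀ n, 0 < η n := fun n => by positivity
  have hηt : Tendsto η atTop (𝓝 0) := tendsto_one_div_add_atTop_nhds_zero_nat
  choose χ hχc h01 hχ1 hχ0 hle using fun n =>
    cut_step hw0 hwi hA hP c ht (hη0 n) h1 h2
  -- the limit of the right side
  have hR : Tendsto (fun n => P + 2 * ((1 + η n) / η n * (mu w (A ∩ ball c (t + η n)) -
      mu w (A ∩ ball c t)))) atTop (𝓝 (P + 2 * d)) := by
    have e1 : Tendsto (fun n => (η n)⁻¹ • ((fun t : ℝ => mu w (A ∩ ball c t)) (t + η n) -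
        (fun t : ℝ => mu w (A ∩ ball c t)) t)) atTop (𝓝 d) := by
      refine (hasDerivAt_iff_tendsto_slope_zero.1 hd).comp ?_
      rw [tendsto_nhdsWithin_iff]
      exact ⟨hηt, Eventually.of_forall fun n => (hη0 n).ne'⟩
    have e2 : Tendsto (fun n => (1 + η n)) atTop (𝓝 1) := by
      simpa using hηt.const_add 1
    have e3 := (e2.mul e1).const_mul 2
    have e4 := e3.const_add P
    rw [one_mul] at e4
    refine e4.congr fun n => ?_
    simp only [smul_eq_mul]
    ring
  -- the limit of the left side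
  set G : ℂ → ℝ := fun z => if ‖z - c‖ ≤ t then dv2 Y2 z else dv2 Y1 z with hG
  have i1 := dv2_int h1.cd h1.cs
  have i2 := dv2_int h2.cd h2.cs
  have hL : Tendsto (fun n => ∫ z in A, (dv2 Y1 z + χ n z * (dv2 Y2 z - dv2 Y1 z))) atTop
      (𝓝 (∫ z in A, G z)) := by
    apply tendsto_integral_of_dominated_convergence
      (fun z => ‖dv2 Y1 z‖ + (‖dv2 Y2 z‖ + ‖dv2 Y1 z‖))
    · intro n
      exact ((dv2_cont h1.cd).add ((hχc n).mul ((dv2_cont h2.cd).sub
        (dv2_cont h1.cd)))).aestronglyMeasurable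
    · exact (i1.norm.add (i2.norm.add i1.norm)).integrableOn
    · intro n
      refine Eventually.of_forall fun z => ?_
      refine (norm_add_le _ _).trans (add_le_add le_rfl ?_)
      rw [norm_mul, Real.norm_of_nonneg (h01 n z).1]
      calc χ n z * ‖dv2 Y2 z - dv2 Y1 z‖ ≤ 1 * ‖dv2 Y2 z - dv2 Y1 z‖ :=
            mul_le_mul_of_nonneg_right (h01 n z).2 (norm_nonneg _)
        _ ≤ _ := by rw [one_mul]; exact norm_sub_le _ _
    · refine Eventually.of_forall fun z => ?_
      by_cases hz : ‖z - c‖ ≤ t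
      · have e1 : G z = dv2 Y2 z := by rw [hG]; simp only [if_pos hz]
        rw [e1]
        refine tendsto_const_nhds.congr fun n => ?_
        rw [hχ1 n z hz]
        ring
      · have e1 : G z = dv2 Y1 z := by rw [hG]; simp only [if_neg hz]
        rw [e1]
        have hz' : 0 < ‖z - c‖ - t := by linarith [not_le.1 hz]
        have e2 : ∀ᶠ n in atTop, η n < ‖z - c‖ - t := (hηt.eventually (gt_mem_nhds hz'))
        refine tendsto_const_nhds.congr' ?_
        filter_upwards [e2] with n hn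
        rw [hχ0 n z (by linarith)]
        ring
  have hlim := le_of_tendsto_of_tendsto' hL hR hle
  -- the integral of `G`
  have hsph : volume (sphere c t) = 0 := Measure.addHaar_sphere _ _ _
  have hGi : Integrable G := by
    have e1 : G = (closedBall c t).indicator (dv2 Y2) + (closedBall c t)ᶜ.indicator (dv2 Y1) := by
      funext z
      simp only [hG, Pi.add_apply]
      by_cases hz : ‖z - c‖ ≤ t
      · have hz1 : z ∈ closedBall c t := by rw [mem_closedBall, dist_eq_norm]; exact hz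
        rw [if_pos hz, indicator_of_mem hz1, indicator_of_notMem (notMem_compl_iff.2 hz1), add_zero]
      · have hz1 : z ∉ closedBall c t := by rw [mem_closedBall, dist_eq_norm]; exact hz
        rw [if_neg hz, indicator_of_notMem hz1, indicator_of_mem (mem_compl hz1), zero_add]
    rw [e1]
    exact (i2.indicator measurableSet_closedBall).add (i1.indicator
      measurableSet_closedBall.compl)
  have hsplit : ∫ z in A, G z = (∫ z in A ∩ ball c t, G z) + ∫ z in A \ ball c t, G z :=
    (integral_inter_add_sdiff measurableSet_ball hGi.integrableOn).symm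
  have hin : ∫ z in A ∩ ball c t, G z = ∫ z in A ∩ ball c t, dv2 Y2 z := by
    apply setIntegral_congr_fun (hA.inter measurableSet_ball)
    intro z hz
    have : ‖z - c‖ ≤ t := by
      have := hz.2
      rw [mem_ball, dist_eq_norm] at this
      exact this.le
    simp only [hG, if_pos this]
  have hout : ∫ z in A \ ball c t, G z = ∫ z in A \ ball c t, dv2 Y1 z := by
    apply setIntegral_congr_ae (hA.diff measurableSet_ball)
    have : ∀ᵐ z : ℂ, z ∉ sphere c t := measure_eq_zero_iff_ae_notMem.1 hsph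
    filter_upwards [this] with z hz hz2
    have hz3 : ¬ ‖z - c‖ ≤ t := by
      intro h
      have h4 := hz2.2
      rw [mem_ball, dist_eq_norm, not_lt] at h4
      apply hz
      rw [mem_sphere, dist_eq_norm]
      exact le_antisymm h h4
    simp only [hG, if_neg hz3]
  rw [hsplit, hin, hout] at hlim
  linarith

theorem c9 : S_C9 := by
  intro w Λ v A hwc hw0 hwi hΛ hA c t d ht hd
  have hAm := hA.meas
  have hmu0 : ∀ B : Set ℂ, 0 ≤ mu w B := fun B => integral_nonneg hw0
  have hv : 0 ≤ v := (hmu0 A).trans hA.le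
  -- a first bound of the perimeter
  have hP0 : PW w A (Λ * mu w A) := by
    have h1 : mu w (∅ : Set ℂ) = 0 := by unfold mu; simp
    have h2 := hA.min ∅ 0 MeasurableSet.empty (by rw [h1]; exact hv) (by
      intro Y _
      simp)
    rw [h1, zero_add, sub_zero] at h2
    exact h2
  set R : Set ℂ := ball c t with hR
  have hRm : MeasurableSet R := measurableSet_ball
  -- the perimeter of `A \ R`
  set S : Set ℝ := {p | ∃ Y : ℂ → ℂ, TW w Y ∧ p = ∫ z in A \ R, dv2 Y z} with hS
  have hSne : S.Nonempty := ⟨_, fun _ => 0, TW_zero hw0, rfl⟩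
  have hSb : BddAbove S := by
    refine ⟨Λ * mu w A + 2 * d, ?_⟩
    rintro _ ⟨Y, hY, rfl⟩
    have h1 := cut hw0 hwi hAm hP0 c ht hd hY (TW_zero hw0)
    simp only [dv2_zero, integral_zero, add_zero] at h1
    exact h1
  set p1 : ℝ := sSup S with hp1
  have hPW1 : PW w (A \ R) p1 := fun Y hY => le_csSup hSb ⟨Y, hY, rfl⟩
  have hmud : mu w A = mu w (A ∩ R) + mu w (A \ R) := by
    unfold mu
    exact (integral_inter_add_sdiff hRm hwi.integrableOn).symm
  have hP1 : PW w A (p1 + Λ * mu w (A ∩ R)) := by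
    have h1 := hA.min (A \ R) p1 (hAm.diff hRm) (by
      have := hmu0 (A ∩ R)
      have := hA.le
      linarith) hPW1
    have h2 : mu w A - mu w (A \ R) = mu w (A ∩ R) := by linarith
    rwa [h2] at h1
  intro Y2 hY2
  have h3 : p1 ≤ p1 + Λ * mu w (A ∩ R) + 2 * d - ∫ z in A ∩ R, dv2 Y2 z := by
    apply csSup_le hSne
    rintro _ ⟨Y, hY, rfl⟩
    have h1 := cut hw0 hwi hAm hP1 c ht hd hY hY2
    linarith
  linarith

end Pool.Agent.TH802.HU
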